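import Pool.Agent.Helper38.BN.IntH

/-!
# Project SPH (MP_2ec7a7_al), the block of `B_5`: the homomorphism `iota` is injective

The braid group acts on `strands × HB k` (the monomial representation induced from the stabiliser
of the strand `0`); the element `iota h` maps `(0, g)` to `(0, h g)`.
-/

namespace Pool.Agent.Helper29.B5

open Pool.Agent.Helper38.BN

variable {k : ℕ}

/-- the action of the generator -/
def mf (i : ℕ) (x : ℕ × HB k) : ℕ × HB k :=
  if x.1 = i then (i + 1, zz aH dH i * x.2)
  else if x.1 = i + 1 then (i, x.2)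
  else if x.1 < i then (x.1, aH (i - 1) * x.2)
  else if x.1 < k + 2 then (x.1, aH i * x.2)
  else x

/-- the action of the inverse of the generator -/
def mg (i : ℕ) (x : ℕ × HB k) : ℕ × HB k :=
  if x.1 = i then (i + 1, x.2)
  else if x.1 = i + 1 then (i, (zz aH dH i)⁻¹ * x.2)
  else if x.1 < i then (x.1, (aH (i - 1))⁻¹ * x.2)
  else if x.1 < k + 2 then (x.1, (aH i)⁻¹ * x.2)
  else x

lemma mf_eq (i : ℕ) (h : HB k) : mf i (i, h) = (i + 1, zz aH dH i * h) := by
  unfold mf
  rw [if_pos rfl]

lemma mf_succ (i : ℕ) (h : HB k) : mf i (i + 1, h) = (i, h) := by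
  unfold mf
  rw [if_neg (by simp), if_pos rfl]

lemma mf_lt {i j : ℕ} (hj : j < i) (h : HB k) : mf i (j, h) = (j, aH (i - 1) * h) := by
  unfold mf
  rw [if_neg (by simp only; omega), if_neg (by simp only; omega), if_pos hj]

lemma mf_gt {i j : ℕ} (hj : i + 1 < j) (hk : j < k + 2) (h : HB k) :
    mf i (j, h) = (j, aH i * h) := by
  unfold mf
  rw [if_neg (by simp only; omega), if_neg (by simp only; omega), if_neg (by simp only; omega),
    if_pos hk]

lemma mf_ge {i j : ℕ} (hj : i + 1 < j) (hk : k + 2 ≤ j) (h : HB k) : mf i (j, h) = (j, h) := by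
  unfold mf
  rw [if_neg (by simp only; omega), if_neg (by simp only; omega), if_neg (by simp only; omega),
    if_neg (by simp only; omega)]

lemma mg_mf (i : ℕ) (x : ℕ × HB k) : mg i (mf i x) = x := by
  obtain ⟨j, h⟩ := x
  by_cases h1 : j = i
  · subst h1
    rw [mf_eq]
    unfold mg
    rw [if_neg (by simp), if_pos rfl, inv_mul_cancel_left]
  by_cases h2 : j = i + 1
  · subst h2
    rw [mf_succ]
    unfold mg
    rw [if_pos rfl]
  by_cases h3 : j < i
  · rw [mf_lt h3]
    unfold mg
    rw [if_neg h1, if_neg h2, if_pos h3, inv_mul_cancel_left]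
  by_cases h4 : j < k + 2
  · rw [mf_gt (by omega) h4]
    unfold mg
    rw [if_neg h1, if_neg h2, if_neg h3, if_pos h4, inv_mul_cancel_left]
  · rw [mf_ge (by omega) (by omega)]
    unfold mg
    rw [if_neg h1, if_neg h2, if_neg h3, if_neg h4]

lemma mf_mg (i : ℕ) (x : ℕ × HB k) : mf i (mg i x) = x := by
  obtain ⟨j, h⟩ := x
  by_cases h1 : j = i
  · subst h1
    unfold mg
    rw [if_pos rfl, mf_succ]
  by_cases h2 : j = i + 1
  · subst h2
    unfold mg
    rw [if_neg (by simp), if_pos rfl, mf_eq, mul_inv_cancel_left]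
  by_cases h3 : j < i
  · unfold mg
    rw [if_neg h1, if_neg h2, if_pos h3, mf_lt h3, mul_inv_cancel_left]
  by_cases h4 : j < k + 2
  · unfold mg
    rw [if_neg h1, if_neg h2, if_neg h3, if_pos h4, mf_gt (by omega) h4, mul_inv_cancel_left]
  · unfold mg
    rw [if_neg h1, if_neg h2, if_neg h3, if_neg h4, mf_ge (by omega) (by omega)]

/-- the generator as a permutation -/
def mp (i : ℕ) : Equiv.Perm (ℕ × HB k) := ⟨mf i, mg i, mg_mf i, mf_mg i⟩

lemma mp_apply (i : ℕ) (x : ℕ × HB k) : mp i x = mf i x := rfl

lemma az_self' {i : ℕ} (hi : i < k) :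
    (aH i : HB k) * zz aH dH (i + 1) * zz aH dH i = zz aH dH (i + 1) * zz aH dH i * aH i := by
  have h1 := az_self (relH k) hi
  have h2 := az_succ (aH : ℕ → HB k) dH i
  have h3 : (aH i : HB k) * zz aH dH i =
      (zz aH dH i)⁻¹ * zz aH dH (i + 1) * zz aH dH i * aH i := by
    rw [← h1]
    group
  rw [h2, mul_assoc, h3]
  group

private lemma mp_comm {i j : ℕ} (hij : i + 2 ≤ j) (hj : j < k + 1) (x : ℕ × HB k) :
    mf i (mf j x) = mf j (mf i x) := by
  have hc := (relH k).toRelBr.comm
  obtain ⟨p, h⟩ := x
  rcases lt_trichotomy p i with h1 | h1 | h1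
  · have e1 := mf_lt (k := k) h1
    have e2 := mf_lt (k := k) (show p < j by omega)
    simp only [e1, e2, ← mul_assoc]
    rw [hc (i - 1) (j - 1) (by omega) (by omega)]
  · subst h1
    have e1 := mf_eq (k := k) p
    have e2 := mf_lt (k := k) (show p < j by omega)
    have e3 := mf_lt (k := k) (show p + 1 < j by omega)
    simp only [e1, e2, e3, ← mul_assoc]
    rw [az_comm (relH k) (i := j - 1) (j := p) (by omega) (by omega) (by omega) (by omega)]
  · rcases lt_trichotomy p (i + 1) with h2 | h2 | h2
    · omega
    · subst h2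
      have e1 := mf_succ (k := k) i
      have e2 := mf_lt (k := k) (show i < j by omega)
      have e3 := mf_lt (k := k) (show i + 1 < j by omega)
      simp only [e1, e2, e3]
    · rcases lt_trichotomy p j with h3 | h3 | h3
      · have e1 := mf_gt (k := k) h2 (by omega)
        have e2 := mf_lt (k := k) h3
        simp only [e1, e2, ← mul_assoc]
        rw [hc i (j - 1) (by omega) (by omega)]
      · subst h3
        have e1 := mf_gt (k := k) h2 (by omega)
        have e2 := mf_eq (k := k) p
        have e3 := mf_gt (k := k) (show i + 1 < p + 1 by omega) (by omega)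
        simp only [e1, e2, e3, ← mul_assoc]
        rw [az_comm (relH k) (i := i) (j := p) (by omega) (by omega) (by omega) (by omega)]
      · rcases lt_trichotomy p (j + 1) with h4 | h4 | h4
        · omega
        · subst h4
          have e1 := mf_gt (k := k) (show i + 1 < j by omega) (by omega)
          have e2 := mf_succ (k := k) j
          have e3 := mf_gt (k := k) h2 (by omega)
          simp only [e1, e2, e3]
        · rcases Nat.lt_or_ge p (k + 2) with hp | hp
          · have e1 := mf_gt (k := k) h4 hp
            have e2 := mf_gt (k := k) h2 hp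
            simp only [e1, e2, ← mul_assoc]
            rw [hc i j hij (by omega)]
          · have e1 := mf_ge (k := k) h4 hp
            have e2 := mf_ge (k := k) h2 hp
            simp only [e1, e2]

private lemma mp_braid {i : ℕ} (hi : i + 1 < k + 1) (x : ℕ × HB k) :
    mf i (mf (i + 1) (mf i x)) = mf (i + 1) (mf i (mf (i + 1) x)) := by
  have hb := (relH k).toRelBr.braid
  obtain ⟨p, h⟩ := x
  rcases lt_trichotomy p i with h1 | h1 | h1
  · have e1 := mf_lt (k := k) h1
    have e2 := mf_lt (k := k) (show p < i + 1 by omega)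
    simp only [e1, e2, ← mul_assoc]
    obtain ⟨r, rfl⟩ : ∃ r, i = r + 1 := ⟨i - 1, by omega⟩
    rw [Nat.add_sub_cancel, Nat.add_sub_cancel, hb r (by omega)]
  · subst h1
    have e1 := mf_eq (k := k) p
    have e2 := mf_eq (k := k) (p + 1)
    have e3 := mf_gt (k := k) (show p + 1 < p + 1 + 1 by omega) (by omega)
    have e4 := mf_lt (k := k) (show p < p + 1 by omega)
    simp only [e1, e2, e3, e4, ← mul_assoc, Nat.add_sub_cancel]
    rw [az_self' (by omega)]
  · rcases lt_trichotomy p (i + 1) with h2 | h2 | h2
    · omega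
    · subst h2
      have e1 := mf_succ (k := k) i
      have e2 := mf_lt (k := k) (show i < i + 1 by omega)
      have e3 := mf_eq (k := k) i
      have e4 := mf_eq (k := k) (i + 1)
      have e5 := mf_gt (k := k) (show i + 1 < i + 1 + 1 by omega) (by omega)
      have e6 := mf_succ (k := k) (i + 1)
      simp only [e1, e2, e3, e4, e5, e6, ← mul_assoc, Nat.add_sub_cancel]
      rw [az_succ]
    · rcases lt_trichotomy p (i + 2) with h3 | h3 | h3
      · omega
      · subst h3
        have e1 := mf_gt (k := k) h2 (by omega)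
        have e2 := mf_succ (k := k) (i + 1)
        have e3 := mf_succ (k := k) i
        have e4 := mf_lt (k := k) (show i < i + 1 by omega)
        have e5 : i + 2 = i + 1 + 1 := rfl
        simp only [e5] at e1 ⊢
        simp only [e1, e2, e3, e4, Nat.add_sub_cancel]
      · rcases Nat.lt_or_ge p (k + 2) with hp | hp
        · have e1 := mf_gt (k := k) h2 hp
          have e2 := mf_gt (k := k) (show i + 1 + 1 < p by omega) hp
          simp only [e1, e2, ← mul_assoc]
          rw [hb i (by omega)]
        · have e1 := mf_ge (k := k) h2 hp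
          have e2 := mf_ge (k := k) (show i + 1 + 1 < p by omega) hp
          simp only [e1, e2]

theorem mp_rel (k : ℕ) : RelBr (k + 1) (mp : ℕ → Equiv.Perm (ℕ × HB k)) where
  comm i j hij hj := Equiv.ext fun x => mp_comm hij hj x
  braid i hi := Equiv.ext fun x => mp_braid hi x

lemma relB_one {K : Type*} [Group K] {a : ℕ → K} (h : RelBr k a) : RelB k a 1 where
  toRelBr := h
  dcomm i _ _ := by rw [mul_one, one_mul]
  four _ := by rw [mul_one, mul_one, one_mul, mul_one]

/-- the action on `strands × HB k` -/
def mh (k : ℕ) : HB (k + 1) →* Equiv.Perm (ℕ × HB k) := liftH (relB_one (mp_rel k))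

theorem mh_iota (h g : HB k) : mh k (iota k h) (0, g) = (0, h * g) := by
  let S : Subgroup (HB k) := {
    carrier := {h | ∀ g, mh k (iota k h) (0, g) = (0, h * g)}
    one_mem' := fun g => by rw [map_one, map_one, one_mul]; rfl
    mul_mem' := by
      intro a b ha hb g
      rw [map_mul, map_mul, Equiv.Perm.mul_apply, hb g, ha (b * g), mul_assoc]
    inv_mem' := by
      intro a ha g
      have h1 := ha (a⁻¹ * g)
      rw [mul_inv_cancel_left] at h1
      rw [map_inv, map_inv, ← h1]
      exact Equiv.symm_apply_apply _ _ }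
  have hS : S = ⊤ := by
    rw [eq_top_iff, ← closure_H, Subgroup.closure_le]
    rintro x (hx | ⟨j, hj, rfl⟩) g
    · obtain rfl : x = dH := hx
      have e0 : mh k (aH 0) = mp 0 := liftH_a _ (by omega)
      rw [BTwo.iota_d, map_mul, e0, Equiv.Perm.mul_apply, mp_apply, mp_apply, mf_eq, mf_succ]
      rfl
    · have hj' : j < k := hj
      have e0 : mh k (aH (j + 1)) = mp (j + 1) := liftH_a _ (by omega)
      rw [BTwo.iota_a hj', e0, mp_apply, mf_lt (by omega), Nat.add_sub_cancel]
  exact (show h ∈ S by rw [hS]; trivial) g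

/-- `iota` is injective: the group of type `B_{k+1}` is the stabiliser of a strand -/
theorem iota_inj (k : ℕ) : Function.Injective (iota k) := by
  rw [injective_iff_map_eq_one]
  intro h hh
  have h1 := mh_iota h 1
  rw [hh, map_one, mul_one] at h1
  exact (congrArg Prod.snd h1).symm

/-- the free group embeds into `HB k` -/
theorem zH_inj (k : ℕ) : Function.Injective (zH (k + 1)) := by
  rw [injective_iff_map_eq_one]
  intro x hx
  have h1 := chi_zH x
  rw [hx, map_one] at h1
  refine F_center fun y => ?_
  have h2 := DFunLike.congr_fun h1 y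
  rw [MulAut.one_apply, MulAut.conj_apply] at h2
  nth_rewrite 2 [h2]
  group

/-- an element which commutes with the free group is a power of `ζ` -/
theorem eq_zeta_pow {u : HB (k + 1)} (h : ∀ x, u * zH (k + 1) x = zH (k + 1) x * u) :
    u ∈ Subgroup.zpowers (zeH (k + 1)) := by
  apply faithful
  ext1 x
  rw [MulAut.one_apply]
  apply zH_inj
  rw [← zH_conj, h x, mul_inv_cancel_right]

end Pool.Agent.Helper29.B5
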