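import Pool.Agent.Helper29.B5.Perm
import Pool.Agent.Helper38.BN.IntD

/-!
# Project SPH (MP_2ec7a7_al), the block of `B_5`: automorphisms which preserve the length are inner

`ψ` is an automorphism of the braid group `B` on five strands which preserves the length.  After an
inner automorphism it preserves the permutations, hence the stabiliser `HB 3` of the strand `0`;
there it is inner (`aut_H`, the length excludes the transvections and the symmetry `Sp`), so after
another inner automorphism it is the identity on `HB 3`.  Then `(s 0)⁻¹ ψ(s 0)` commutes with the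
free group of `HB 3`, so it is a power of `ζ`, and the length shows that it is `1`.
-/

namespace Pool.Agent.Helper29.B5

open Pool.Agent.Helper38.BN Equiv

namespace Bd

variable {B : Type*} [Group B] {s : ℕ → B} {j : B →* HB 4} (h : Bd s j)

/-- the inclusion of the stabiliser of the strand `0` -/
def io (h : Bd s j) : HB 3 →* B := liftH (iota_rel h.rel)

include h

theorem io_a {i : ℕ} (hi : i < 3) : h.io (aH i) = s (i + 1) := liftH_a _ hi

theorem io_d : h.io dH = s 0 * s 0 := liftH_d _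

theorem j_io (x : HB 3) : j (h.io x) = iota 3 x := by
  have h1 : j.comp h.io = iota 3 := by
    apply homH_ext
    · intro i hi
      rw [MonoidHom.comp_apply, h.io_a hi, h.js _ (by omega)]
      exact (BTwo.iota_a hi).symm
    · rw [MonoidHom.comp_apply, h.io_d, map_mul, h.js _ (by omega)]
      exact BTwo.iota_d.symm
  exact DFunLike.congr_fun h1 x

theorem io_inj : Function.Injective h.io := by
  intro x y hxy
  apply iota_inj 3
  rw [← h.j_io, ← h.j_io, hxy]

theorem stab {b : B} (hb : piH 4 (j b) 0 = 0) : ∃ x, b = h.io x := by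
  obtain ⟨x, hx⟩ := Br_stab (h.j_mem b) hb
  exact ⟨x, h.j_inj (by rw [hx, h.j_io])⟩

theorem p_io_zero (x : HB 3) : piH 4 (j (h.io x)) 0 = 0 := by
  rw [h.j_io]
  exact piH_iota_zero x

/-- an automorphism which preserves the permutations is an automorphism of the stabiliser -/
theorem restrict {φ : MulAut B} (hφ : ∀ x, piH 4 (j (φ x)) = piH 4 (j x)) :
    ∃ φ' : MulAut (HB 3), ∀ x, φ (h.io x) = h.io (φ' x) := by
  have h1 : ∀ x : HB 3, ∃ y, φ (h.io x) = h.io y := fun x => h.stab (by
    rw [hφ]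
    exact h.p_io_zero x)
  have h2 : ∀ x : HB 3, ∃ y, φ.symm (h.io x) = h.io y := fun x => h.stab (by
    rw [← hφ, MulEquiv.apply_symm_apply]
    exact h.p_io_zero x)
  choose f hf using h1
  choose g hg using h2
  refine ⟨{ toFun := f, invFun := g, left_inv := ?_, right_inv := ?_, map_mul' := ?_ }, hf⟩
  · intro x
    apply h.io_inj
    rw [← hg, ← hf, MulEquiv.symm_apply_apply]
  · intro x
    apply h.io_inj
    rw [← hf, ← hg, MulEquiv.apply_symm_apply]
  · intro x y
    apply h.io_inj
    rw [← hf, map_mul, map_mul, map_mul, hf, hf]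

/-- the permutation of the element of the stabiliser -/
theorem p_restrict {φ : MulAut B} (hφ : ∀ x, piH 4 (j (φ x)) = piH 4 (j x))
    {φ' : MulAut (HB 3)} (h' : ∀ x, φ (h.io x) = h.io (φ' x)) (x : HB 3) :
    piH 3 (φ' x) = piH 3 x := by
  ext i
  have h1 := hφ (h.io x)
  rw [h', h.j_io, h.j_io] at h1
  have h2 := piH_iota (φ' x) i
  have h3 := piH_iota x i
  have h4 := DFunLike.congr_fun h1 (i + 1)
  have h5 : piH (3 + 1) (iota 3 (φ' x)) (i + 1) = piH (3 + 1) (iota 3 x) (i + 1) := h4
  omega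

/-- the element `δ = s 0 s 1 s 2 s 3` -/
theorem io_zeta : h.io (zeH 3) = (s 0 * s 1 * s 2 * s 3) ^ 5 := by
  apply h.j_inj
  rw [h.j_io, iota_zeta, map_pow, map_mul, map_mul, map_mul, h.js 0 (by omega),
    h.js 1 (by omega), h.js 2 (by omega), h.js 3 (by omega)]
  unfold Om
  simp only [kap, one_mul]

end Bd

/-- a length on the braid group -/
structure Len {B : Type*} [Group B] (s : ℕ → B) (L : B → ℤ) (c : ℤ) : Prop where
  mul : ∀ x y, L (x * y) = L x + L y
  gen : ∀ i, i < 4 → L (s i) = c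
  ne : c ≠ 0

namespace Len

variable {B : Type*} [Group B] {s : ℕ → B} {L : B → ℤ} {c : ℤ} (hL : Len s L c)
include hL

theorem one : L 1 = 0 := by
  have h1 := hL.mul 1 1
  rw [mul_one] at h1
  omega

theorem inv (x : B) : L x⁻¹ = - L x := by
  have h1 := hL.mul x x⁻¹
  rw [mul_inv_cancel, hL.one] at h1
  omega

theorem conj (x y : B) : L (x * y * x⁻¹) = L y := by
  rw [hL.mul, hL.mul, hL.inv]
  omega

theorem zpow (x : B) (n : ℤ) : L (x ^ n) = n * L x := by
  induction n with
  | zero => rw [zpow_zero, hL.one, zero_mul]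
  | succ i ih => rw [zpow_add, zpow_one, hL.mul, ih]; ring
  | pred i ih => rw [zpow_sub, zpow_one, hL.mul, hL.inv, ih]; ring

theorem zeta {j : B →* HB 4} (h : Bd s j) : L (h.io (zeH 3)) = 20 * c := by
  rw [h.io_zeta, ← zpow_natCast, hL.zpow, hL.mul, hL.mul, hL.mul, hL.gen 0 (by omega),
    hL.gen 1 (by omega), hL.gen 2 (by omega), hL.gen 3 (by omega)]
  push_cast
  ring

end Len

/-- the transvection with `l = 0` -/
theorem Tr_zero (k : ℕ) (x : HB k) : Tr k 0 x = x := by
  have h1 : Tr k 0 = MonoidHom.id (HB k) := by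
    apply homH_ext
    · intro i hi
      unfold Tr
      rw [liftH_a _ hi]
      simp
    · unfold Tr
      rw [liftH_d]
      simp
  exact DFunLike.congr_fun h1 x

/-- a permutation which commutes with `(0 1)` and `(1 2)` fixes `0` -/
theorem fix_zero {T : Perm ℕ} (h0 : T * swap 0 1 * T⁻¹ = swap 0 1)
    (h1 : T * swap 1 2 * T⁻¹ = swap 1 2) : T 0 = 0 := by
  rw [← Equiv.swap_apply_apply] at h0 h1
  have e0 : T 1 = swap 0 1 (T 0) := by
    rw [← h0, swap_apply_left]
  have e1 : T 2 = swap 1 2 (T 1) := by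
    rw [← h1, swap_apply_left]
  have n0 : T 1 ≠ T 0 := fun e => absurd (T.injective e) (by decide)
  have n1 : T 2 ≠ T 1 := fun e => absurd (T.injective e) (by decide)
  rw [swap_apply_def] at e0 e1
  split_ifs at e0 e1 <;> omega

namespace Bd

variable {B : Type*} [Group B] {s : ℕ → B} {j : B →* HB 4} (h : Bd s j)
include h

/-- the last step: an automorphism which is the identity on the stabiliser -/
theorem last {L : B → ℤ} {c : ℤ} (hL : Len s L c) {φ : MulAut B} (hφL : ∀ x, L (φ x) = L x)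
    (hid : ∀ x, φ (h.io x) = h.io x) (hst : piH 4 (j ((s 0)⁻¹ * φ (s 0))) 0 = 0) :
    φ = 1 := by
  obtain ⟨u, hu⟩ := h.stab hst
  have hφ0 : φ (s 0) = s 0 * h.io u := by rw [← hu, mul_inv_cancel_left]
  have hcomm : ∀ x, u * zH 3 x = zH 3 x * u := by
    intro x
    apply h.io_inj
    rw [map_mul, map_mul]
    have hpure : piH 4 (j (h.io (zH 3 x))) = 1 := by
      ext i
      rw [h.j_io]
      rcases Nat.eq_zero_or_pos i with rfl | hi
      · exact piH_iota_zero _
      · obtain ⟨r, rfl⟩ : ∃ r, i = r + 1 := ⟨i - 1, by omega⟩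
        have h1 := piH_iota (zH 3 x) r
        rw [piH_zH] at h1
        exact h1
    obtain ⟨z, hz⟩ := h.stab (b := s 0 * h.io (zH 3 x) * (s 0)⁻¹) (by
      rw [map_mul, map_mul, map_mul, map_mul, hpure, mul_one, map_inv, map_inv, mul_inv_cancel]
      rfl)
    have h1 := hid z
    rw [← hz, map_mul, map_mul, map_inv, hid, hφ0] at h1
    have h2 : h.io u * h.io (zH 3 x) * (h.io u)⁻¹ = h.io (zH 3 x) := by
      have h3 : s 0 * (h.io u * h.io (zH 3 x) * (h.io u)⁻¹) * (s 0)⁻¹ =
          s 0 * h.io (zH 3 x) * (s 0)⁻¹ := by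
        rw [← h1]
        group
      exact mul_left_cancel (mul_right_cancel h3)
    rw [mul_inv_eq_iff_eq_mul] at h2
    exact h2
  obtain ⟨n, hn⟩ := eq_zeta_pow (k := 2) hcomm
  have hn' : zeH 3 ^ n = u := hn
  have hn0 : n = 0 := by
    have h1 := hφL (s 0)
    rw [hφ0, hL.mul, ← hn', map_zpow, hL.zpow, hL.zeta h] at h1
    have h2 : n * (20 * c) = 0 := by omega
    rcases mul_eq_zero.1 h2 with h3 | h3
    · exact h3
    · exact absurd h3 (mul_ne_zero (by norm_num) hL.ne)
  have hφ00 : φ (s 0) = s 0 := by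
    rw [hφ0, ← hn', hn0, zpow_zero, map_one, mul_one]
  have h2 : φ.toMonoidHom = MonoidHom.id B := by
    apply h.hom_ext
    intro i hi
    rcases Nat.eq_zero_or_pos i with rfl | hi0
    · exact hφ00
    · obtain ⟨r, rfl⟩ : ∃ r, i = r + 1 := ⟨i - 1, by omega⟩
      show φ (s (r + 1)) = s (r + 1)
      rw [← h.io_a (show r < 3 by omega), hid]
  ext x
  exact DFunLike.congr_fun h2 x

/-- automorphisms of the braid group on five strands which preserve the length are inner -/
theorem inner {L : B → ℤ} {c : ℤ} (hL : Len s L c) {ψ : MulAut B} (hψL : ∀ x, L (ψ x) = L x) :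
    ∃ t : B, ∀ x, ψ x = t * x * t⁻¹ := by
  obtain ⟨t₀, ht₀⟩ := h.perm_aut ψ
  set φ : MulAut B := MulAut.conj t₀⁻¹ * ψ with hφdef
  have hφ : ∀ x, φ x = t₀⁻¹ * ψ x * t₀ := by
    intro x
    rw [hφdef, MulAut.mul_apply, MulAut.conj_apply, inv_inv]
  have hφL : ∀ x, L (φ x) = L x := by
    intro x
    have h1 := hL.conj t₀⁻¹ (ψ x)
    rw [inv_inv] at h1
    rw [hφ, h1, hψL]
  have hφp : ∀ x, piH 4 (j (φ x)) = piH 4 (j x) := by
    intro x
    rw [hφ, map_mul, map_mul, map_mul, map_mul, ht₀]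
    simp only [map_mul, map_inv]
    group
  obtain ⟨φ', hφ'⟩ := h.restrict hφp
  have hφ'p := h.p_restrict hφp hφ'
  have hL' : ∀ x, L (h.io (φ' x)) = L (h.io x) := fun x => by rw [← hφ', hφL]
  have hζ : φ' (zeH 3) = zeH 3 := by
    obtain ⟨n, hn⟩ := eq_zeta_pow (k := 2) (u := φ' (zeH 3)) (fun x => by
      obtain ⟨y, hy⟩ := φ'.surjective (zH 3 x)
      have h1 := congrArg φ' (zeH_comm y)
      rw [map_mul, map_mul, hy] at h1
      exact h1.symm)
    have hn' : zeH 3 ^ n = φ' (zeH 3) := hn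
    have h1 := hL' (zeH 3)
    rw [← hn', map_zpow, hL.zpow, hL.zeta h] at h1
    have h2 : n = 1 := by
      have h3 : (n - 1) * (20 * c) = 0 := by linarith
      rcases mul_eq_zero.1 h3 with h4 | h4
      · omega
      · exact absurd h4 (mul_ne_zero (by norm_num) hL.ne)
    rw [← hn', h2, zpow_one]
  have ha : ∀ l : ℤ, Tr 3 l (aH 0) = aH 0 * zeH 3 ^ l := fun l => liftH_a _ (by omega)
  have hLa : L (h.io (aH 0)) = c := by
    rw [h.io_a (by omega), hL.gen _ (by omega)]
  obtain ⟨t, l, ht | ht⟩ := aut_H (m := 1) le_rfl φ' hφ'p hζ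
  · have hl : l = 0 := by
      have h1 := hL' (aH 0)
      have h2 : φ' (aH 0) = t * (aH 0 * zeH 3 ^ l) * t⁻¹ := by
        rw [← ha]
        exact ht (aH 0)
      rw [h2, map_mul, map_mul, map_inv, hL.conj, map_mul, map_zpow, hL.mul, hL.zpow,
        hL.zeta h, hLa] at h1
      have h3 : l * (20 * c) = 0 := by omega
      rcases mul_eq_zero.1 h3 with h4 | h4
      · exact h4
      · exact absurd h4 (mul_ne_zero (by norm_num) hL.ne)
    subst hl
    have ht' : ∀ x, φ' x = t * x * t⁻¹ := by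
      intro x
      have h1 := ht x
      rw [Tr_zero] at h1
      exact h1
    have hT : ∀ i, i < 3 → piH 3 t * swap i (i + 1) * (piH 3 t)⁻¹ = swap i (i + 1) := by
      intro i hi
      have h1 := hφ'p (aH i)
      have h2 : piH 3 (φ' (aH i)) = piH 3 (aH i) := h1
      have h3 : piH 3 (aH i) = swap i (i + 1) := liftH_a _ hi
      rw [ht', map_mul, map_mul, map_inv, h3] at h2
      exact h2
    have hT0 : piH 3 t 0 = 0 := fix_zero (hT 0 (by omega)) (hT 1 (by omega))
    set φ₁ : MulAut B := MulAut.conj (h.io t)⁻¹ * φ with hφ₁def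
    have hφ₁ : ∀ x, φ₁ x = (h.io t)⁻¹ * φ x * h.io t := by
      intro x
      rw [hφ₁def, MulAut.mul_apply, MulAut.conj_apply, inv_inv]
    have hfin : φ₁ = 1 := by
      apply h.last hL
      · intro x
        have h1 := hL.conj (h.io t)⁻¹ (φ x)
        rw [inv_inv] at h1
        rw [hφ₁, h1, hφL]
      · intro x
        rw [hφ₁, hφ', ht', map_mul, map_mul, map_inv]
        group
      · have hP0 : piH 4 (j (h.io t)) 0 = 0 := h.p_io_zero t
        have hP1 : piH 4 (j (h.io t)) 1 = 1 := by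
          rw [h.j_io]
          have h1 := piH_iota t 0
          rw [hT0] at h1
          exact h1
        have hs : piH 4 (j (s 0)) = swap 0 1 := by
          rw [h.js 0 (by omega)]
          exact liftH_a _ (by omega)
        have hP1' : (piH 4 (j (h.io t)))⁻¹ 1 = 1 := by
          rw [Equiv.Perm.inv_eq_iff_eq]
          exact hP1.symm
        rw [hφ₁]
        simp only [map_mul, map_inv]
        rw [hφp, hs]
        simp only [Equiv.Perm.mul_apply]
        rw [hP0, swap_apply_left, hP1']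
        rw [swap_inv, swap_apply_right]
    refine ⟨t₀ * h.io t, fun x => ?_⟩
    have h1 := hφ₁ x
    rw [hfin, MulAut.one_apply, hφ] at h1
    calc ψ x = (t₀ * h.io t) * ((h.io t)⁻¹ * (t₀⁻¹ * ψ x * t₀) * h.io t) * (t₀ * h.io t)⁻¹ := by
          group
      _ = t₀ * h.io t * x * (t₀ * h.io t)⁻¹ := by rw [← h1]
  · exfalso
    have h1 := hL' (aH 0)
    have h2 : φ' (aH 0) = t * (aH 0 * zeH 3 ^ l)⁻¹ * t⁻¹ := by
      have h3 : Sp 3 (aH 0) = (aH 0)⁻¹ := liftH_a _ (by omega)
      have h4 := ht (aH 0)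
      have h5 : φ' (aH 0) = t * Tr 3 l (Sp 3 (aH 0)) * t⁻¹ := h4
      rw [h5, h3, map_inv, ha]
    rw [h2, map_mul, map_mul, map_inv h.io t, hL.conj, map_inv, hL.inv, map_mul, map_zpow, hL.mul,
      hL.zpow, hL.zeta h, hLa] at h1
    have h3 : (2 + 20 * l) * c = 0 := by linarith
    rcases mul_eq_zero.1 h3 with h4 | h4
    · omega
    · exact hL.ne h4

end Bd

end Pool.Agent.Helper29.B5
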