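import Pool.Agent.Helper29.B5.Iota
import Pool.Agent.Helper38.BN.B3P3
import Pool.Agent.Helper38.BN.B3W2
import Pool.Agent.Helper38.BN.PiF

/-!
# Project SPH (MP_2ec7a7_al), the block of `B_5`: the braid group and the permutations

`Bd s j`: the group `B` is generated by `s 0, …, s 3`, which satisfy the braid relations, and
`j : B → HB 4` maps `s i` to `aH i` (so `B` is the braid group on five strands).
-/

namespace Pool.Agent.Helper29.B5

open Pool.Agent.Helper38.BN Equiv

/-- `B` is the braid group on five strands with the generators `s 0, …, s 3` -/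
structure Bd {B : Type*} [Group B] (s : ℕ → B) (j : B →* HB 4) : Prop where
  rel : RelBr 4 s
  gen : Subgroup.closure (s '' {i | i < 4}) = ⊤
  js : ∀ i, i < 4 → j (s i) = aH i

namespace Bd

variable {B : Type*} [Group B] {s : ℕ → B} {j : B →* HB 4} (h : Bd s j)
include h

theorem hom_ext {K : Type*} [Group K] {f g : B →* K} (hfg : ∀ i, i < 4 → f (s i) = g (s i)) :
    f = g := by
  apply MonoidHom.eq_of_eqOn_dense h.gen
  rintro _ ⟨i, hi, rfl⟩
  exact hfg i hi

theorem j_inj : Function.Injective j := by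
  have h1 : (liftH (relB_one h.rel)).comp j = MonoidHom.id B := by
    apply h.hom_ext
    intro i hi
    rw [MonoidHom.comp_apply, h.js i hi, liftH_a _ hi]
    rfl
  intro x y hxy
  have h2 := DFunLike.congr_fun h1 x
  have h3 := DFunLike.congr_fun h1 y
  rw [MonoidHom.comp_apply] at h2 h3
  rw [hxy, h3] at h2
  exact h2.symm

theorem j_mem (x : B) : j x ∈ BrH 4 := by
  have h1 : x ∈ (BrH 4).comap j := by
    have h2 : (⊤ : Subgroup B) ≤ (BrH 4).comap j := by
      rw [← h.gen, Subgroup.closure_le]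
      rintro _ ⟨i, hi, rfl⟩
      show j (s i) ∈ BrH 4
      rw [h.js i hi]
      exact Subgroup.subset_closure ⟨i, hi, rfl⟩
    exact h2 trivial
  exact h1

omit h in
/-- the permutation of the five strands -/
def q5 : HB 4 →* Perm (Fin 5) := liftH (swF_relA 2).toRelB

omit h in
lemma q5_a {i : ℕ} (hi : i < 4) : q5 (aH i) = swF 2 i := liftH_a _ hi

omit h in
lemma piH_q5 (x : HB 4) : piH 4 x = extF 2 (q5 x) := by
  have h : piH 4 = (extF 2).comp q5 := by
    apply homH_ext
    · intro j hj
      rw [MonoidHom.comp_apply, q5_a hj, extF_sw hj]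
      exact liftH_a _ hj
    · have e : q5 dH = 1 := liftH_d _
      rw [MonoidHom.comp_apply, e, map_one]
      exact liftH_d _
  rw [h]
  rfl

/-- the permutations are surjective -/
theorem p_surj : Function.Surjective (q5.comp j) := by
  rw [← MonoidHom.range_eq_top, eq_top_iff]
  have h1 := Equiv.Perm.mclosure_swap_castSucc_succ 4
  intro σ _
  have hσ : σ ∈ (⊤ : Submonoid (Perm (Fin (4 + 1)))) := trivial
  rw [← h1] at hσ
  change σ ∈ (q5.comp j).range
  have hle : Submonoid.closure (Set.range fun i : Fin 4 => Equiv.swap i.castSucc i.succ) ≤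
      (q5.comp j).range.toSubmonoid := by
    rw [Submonoid.closure_le]
    rintro _ ⟨i, rfl⟩
    refine ⟨s i.val, ?_⟩
    rw [MonoidHom.comp_apply, h.js _ i.2, q5_a i.2]
    unfold swF
    rw [dif_pos i.2]
    rfl
  exact hle hσ

/-- homomorphisms to the symmetric group with noncommutative image -/
theorem std {f : B →* Perm (Fin 5)} (hf : ∃ x y, f x * f y ≠ f y * f x) :
    ∃ g, ∀ x, f x = g * q5 (j x) * g⁻¹ := by
  have hr : RelBr 4 (fun i => f (s i)) := h.rel.map f
  have hne : f (s 0) ≠ f (s 1) := by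
    intro e
    obtain ⟨x, y, hxy⟩ := hf
    apply hxy
    have h1 := all_eq_of_succ hr (i := 0) (by omega) e
    have h2 : ∀ x, f x ∈ Subgroup.zpowers (f (s 0)) := by
      intro x
      have h3 : (⊤ : Subgroup B) ≤ (Subgroup.zpowers (f (s 0))).comap f := by
        rw [← h.gen, Subgroup.closure_le]
        rintro _ ⟨i, hi, rfl⟩
        show f (s i) ∈ Subgroup.zpowers (f (s 0))
        rw [h1 i hi]
        exact Subgroup.mem_zpowers _
      exact h3 trivial
    obtain ⟨m, hm⟩ := h2 x
    obtain ⟨n, hn⟩ := h2 y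
    rw [← hm, ← hn]
    simp only []
    rw [← zpow_add, ← zpow_add, add_comm]
  have h2 := (ll (p := 4) le_rfl (by omega) (α := Fin 5) (by simp) hr hne).2
  have hs0 : (f (s 0)).IsSwap := isSwap_of_card h2
  have hd : ∀ i j, i < j → j < 4 → f (s i) ≠ f (s j) := by
    intro i j hij hj e
    have h1 := all_eq le_rfl hr hij hj e
    exact hne (h1 1 (by omega)).symm
  have hsw : ∀ i, i < 4 → (f (s i)).IsSwap := by
    intro i hi
    obtain ⟨g, hg⟩ := hr.conj_zero hi
    have hg' : f (s i) = g * f (s 0) * g⁻¹ := hg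
    rw [hg']
    exact isSwap_conj hs0 g
  obtain ⟨c, hc, hac⟩ := std_pos (p := 4) (by omega) hr hsw hd
  have hinj : Function.Injective (fun i : Fin 5 => c i) := by
    intro i j hij
    have hij' : c i = c j := hij
    by_contra hne
    rcases Nat.lt_or_gt_of_ne (fun h => hne (Fin.ext h) : (i : ℕ) ≠ (j : ℕ)) with h | h
    · exact hc i j h (by omega) hij'
    · exact hc j i h (by omega) hij'.symm
  have hbij := Finite.injective_iff_bijective.1 hinj
  let g : Perm (Fin 5) := Equiv.ofBijective _ hbij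
  have hg : ∀ (i : ℕ) (hi : i < 5), g ⟨i, hi⟩ = c i := fun i hi => rfl
  have hconj : ∀ i, i < 4 → g * swF 2 i * g⁻¹ = f (s i) := by
    intro i hi
    have h1 : f (s i) = swap (c i) (c (i + 1)) := hac i hi
    rw [swF, dif_pos hi, h1, ← hg i (by omega), ← hg (i + 1) (by omega),
      Equiv.swap_apply_apply]
  refine ⟨g, fun x => ?_⟩
  have he : f = (MulAut.conj g).toMonoidHom.comp (q5.comp j) := by
    apply h.hom_ext
    intro i hi
    rw [MonoidHom.comp_apply, MonoidHom.comp_apply, h.js i hi, q5_a hi]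
    exact (hconj i hi).symm
  exact DFunLike.congr_fun he x

/-- every automorphism induces an inner automorphism of the symmetric group -/
theorem perm_aut (ψ : MulAut B) : ∃ t : B, ∀ x, piH 4 (j (ψ x)) = piH 4 (j (t * x * t⁻¹)) := by
  have hsurj : Function.Surjective ((q5.comp j).comp ψ.toMonoidHom) := by
    rw [MonoidHom.coe_comp]
    exact h.p_surj.comp ψ.surjective
  obtain ⟨g, hg⟩ := h.std (f := (q5.comp j).comp ψ.toMonoidHom) (by
    obtain ⟨x, hx⟩ := hsurj (swap 0 1)
    obtain ⟨y, hy⟩ := hsurj (swap 1 2)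
    refine ⟨x, y, ?_⟩
    rw [hx, hy]
    decide)
  obtain ⟨t, ht⟩ := h.p_surj g
  refine ⟨t, fun x => ?_⟩
  have h1 : q5 (j (ψ x)) = g * q5 (j x) * g⁻¹ := hg x
  rw [piH_q5, piH_q5, h1, ← ht]
  simp only [MonoidHom.comp_apply, map_mul, map_inv]

end Bd

end Pool.Agent.Helper29.B5
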